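import Mathlib
import Pool.Agent.X27.Mult.Dens

/-! # Densities of sets closed under multiples (packaging of `X27.Mult.Dens`) -/

set_option autoImplicit false

namespace Pool.Agent.X191.MS
open Finset Filter Topology
open Pool.Agent.X27.Mult

/-- weighted proportion -/
noncomputable def proportion (S : Set ℕ) (s : ℝ) : ℝ :=
  (∑' N : ℕ, S.indicator (fun N : ℕ => (N : ℝ) ^ (-s)) N) / ∑' N : ℕ, (N : ℝ) ^ (-s)

theorem proportion_eq (S : Set ℕ) (s : ℝ) : proportion S s = P S s := by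
  unfold proportion P ser
  rw [Set.indicator_univ]

/-- The multiples of the elements of `A`. -/
def multiples (A : Set ℕ) : Set ℕ := {N | ∃ a ∈ A, a ∣ N ∧ 1 ≤ N}

theorem count_ge {S : Set ℕ} (hS : Up S) {N : ℕ} (hN : N ∈ S) (hN1 : 1 ≤ N) (X : ℕ) :
    X / N ≤ Nat.card {n : ℕ // n ∈ S ∧ 1 ≤ n ∧ n ≤ X} := by
  have hfin : Finite {n : ℕ // n ∈ S ∧ 1 ≤ n ∧ n ≤ X} :=
    Finite.of_injective (β := Fin (X + 1)) (fun n => ⟨n.1, by have := n.2.2.2; omega⟩)
      (fun a b h => Subtype.ext (by simpa using h))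
  have := Nat.card_le_card_of_injective
    (fun i : Fin (X / N) => (⟨N * (i.1 + 1), hS N (i.1 + 1) (by omega) hN,
      Nat.mul_pos hN1 (by omega), by
        have h1 : i.1 + 1 ≤ X / N := i.2
        calc N * (i.1 + 1) ≤ N * (X / N) := Nat.mul_le_mul_left _ h1
          _ ≤ X := Nat.mul_div_le X N⟩ : {n : ℕ // n ∈ S ∧ 1 ≤ n ∧ n ≤ X}))
    (fun a b h => by
      have h1 : N * (a.1 + 1) = N * (b.1 + 1) := congrArg Subtype.val h
      have h2 := Nat.eq_of_mul_eq_mul_left hN1 h1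
      exact Fin.ext (by omega))
  simpa using this

theorem dens {S : Set ℕ} (hS : Up S) (h1S : ∀ n ∈ S, 1 ≤ n) :
    ∃ F : ℝ, F ∈ Set.Icc (0 : ℝ) 1 ∧ AntitoneOn (proportion S) (Set.Ioi 1) ∧
      Tendsto (proportion S) (𝓝[>] 1) (𝓝 F) ∧ (∀ n ∈ S, 1 / (n : ℝ) ≤ F) ∧
      (∀ ε : ℝ, 0 < ε → ∃ A : Finset ℕ, (A : Set ℕ) ⊆ S ∧ multiples A ⊆ S ∧
        ∃ δ : ℝ, F - ε ≤ δ ∧ Tendsto (proportion (multiples A)) (𝓝[>] 1) (𝓝 δ)) ∧
      (F = 0 ↔ S = ∅) := by
  classical
  have hD0 : ∀ N ∈ S, 1 / (N : ℝ) ≤ D S := by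
    intro N hN
    refine (D_multiples (h1S N hN)).trans ?_
    have hsub : {M : ℕ | N ∣ M} ⊆ S ∪ {0} := by
      rintro M ⟨m, rfl⟩
      rcases Nat.eq_zero_or_pos m with h | h
      · right; simp [h]
      · left; exact hS N m h hN
    refine (D_mono hsub).trans (D_le fun s hs => ?_)
    refine le_trans (le_of_eq ?_) (P_le_D _ hs)
    unfold P
    congr 1
    unfold ser
    refine tsum_congr fun n => ?_
    rcases Nat.eq_zero_or_pos n with h | h
    · subst h
      have h0 : ((0 : ℕ) : ℝ) ^ (-s) = 0 := by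
        rw [Nat.cast_zero, Real.zero_rpow (by linarith)]
      simp only [Set.indicator_apply, h0, ite_self]
    · have h1 : (n ∈ S ∪ {0}) ↔ n ∈ S := by
        constructor
        · rintro (h2 | h2)
          · exact h2
          · simp only [Set.mem_singleton_iff] at h2; omega
        · exact Or.inl
      simp only [Set.indicator_apply, h1]
  have hzero : D S = 0 ↔ S = ∅ := by
    constructor
    · intro h
      rw [Set.eq_empty_iff_forall_notMem]
      intro N hN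
      have h1 := hD0 N hN
      rw [h] at h1
      have h2 : (0 : ℝ) < 1 / (N : ℝ) := by
        have : (0 : ℝ) < N := by exact_mod_cast h1S N hN
        positivity
      linarith
    · intro h
      rw [h]
      refine le_antisymm (D_le fun s _ => ?_) (D_nonneg _)
      simp [P, ser]
  have hlim : ∀ S : Set ℕ, Up S → Tendsto (proportion S) (𝓝[>] 1) (𝓝 (D S)) := by
    intro S hS
    exact (tendsto_D hS).congr fun s => (proportion_eq S s).symm
  have hupm : ∀ A : Set ℕ, Up (multiples A) := by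
    rintro A n m hm ⟨a, ha, h1, h2⟩
    exact ⟨a, ha, h1.mul_right m, Nat.mul_pos h2 hm⟩
  refine ⟨D S, ⟨D_nonneg _, D_le_one _⟩, ?_, hlim S hS, hD0, ?_, hzero⟩
  · intro s' hs' s hs h
    rw [proportion_eq, proportion_eq]
    exact P_anti hS hs' h
  · intro ε hε
    have hmono : Monotone fun k : ℕ => multiples (S ∩ {N | N ≤ k}) := by
      rintro k l hkl N ⟨a, ⟨ha, ha2⟩, h1, h2⟩
      exact ⟨a, ⟨ha, le_trans ha2 hkl⟩, h1, h2⟩
    have hU : (⋃ k : ℕ, multiples (S ∩ {N | N ≤ k})) = S := by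
      ext N
      rw [Set.mem_iUnion]
      constructor
      · rintro ⟨k, a, ⟨ha, -⟩, ⟨m, rfl⟩, h2⟩
        exact hS a m (Nat.pos_of_ne_zero fun h => by simp [h] at h2) ha
      · intro hN
        exact ⟨N, N, ⟨hN, le_refl N⟩, dvd_rfl, h1S N hN⟩
    have h1 := D_iUnion _ hmono
    rw [hU] at h1
    obtain ⟨k, hk⟩ := (h1.eventually (eventually_ge_nhds (sub_lt_self _ hε))).exists
    have hfin : (S ∩ {N | N ≤ k}).Finite := (Set.finite_Iic k).subset fun N hN => hN.2
    refine ⟨hfin.toFinset, ?_, ?_, D (multiples (S ∩ {N | N ≤ k})), hk, ?_⟩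
    · rw [Set.Finite.coe_toFinset]; exact Set.inter_subset_left
    · rw [Set.Finite.coe_toFinset]
      intro N hN
      rw [← hU]
      exact Set.mem_iUnion.2 ⟨k, hN⟩
    · rw [Set.Finite.coe_toFinset]
      exact hlim _ (hupm _)

/-- few elements up to arbitrarily large bounds -/
theorem empty_of_few {S : Set ℕ} (hS : Up S) (h1S : ∀ n ∈ S, 1 ≤ n)
    (h : ∀ c : ℝ, 0 < c → ∀ X₀ : ℕ, ∃ X : ℕ, X₀ ≤ X ∧
      (Nat.card {n : ℕ // n ∈ S ∧ 1 ≤ n ∧ n ≤ X} : ℝ) ≤ c * X) : S = ∅ := by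
  rw [Set.eq_empty_iff_forall_notMem]
  intro N hN
  have hN1 := h1S N hN
  have hN0 : (0 : ℝ) < N := by exact_mod_cast hN1
  obtain ⟨X, h1, h2⟩ := h (1 / (3 * N)) (by positivity) (3 * N)
  have h3 := count_ge hS hN hN1 X
  have h4 : ((X / N : ℕ) : ℝ) ≤ 1 / (3 * N) * X := le_trans (by exact_mod_cast h3) h2
  have h5 : (X : ℝ) < N * ((X / N : ℕ) + 1) := by
    have := Nat.lt_mul_div_succ X hN1
    exact_mod_cast this
  have h6 : (3 * N : ℝ) ≤ X := by exact_mod_cast h1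
  have h7 : 1 / (3 * (N : ℝ)) * X * N = X / 3 := by field_simp
  nlinarith

end Pool.Agent.X191.MS
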