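import Mathlib
import Pool.Agent.X27.Mult.Dens

/-! # Spans of the monomials in a sequence of numbers, ordered by the integers

For numbers `x p` (`p` prime) let `L n = ∏ (x p) ^ a` over `p ^ a ‖ n`. -/

set_option autoImplicit false

namespace Pool.Agent.X191.MS
open Finset Filter Topology
open Pool.Agent.X27.Mult (Up)

variable {K : Type} [Field K] [CharZero K]

/-- the completely multiplicative function with values `x p` -/
noncomputable def L (x : ℕ → K) (n : ℕ) : K := n.factorization.prod fun p a => x p ^ a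

/-- the span of `L 1, ..., L N` -/
noncomputable def V (x : ℕ → K) (N : ℕ) : Submodule ℚ K := Submodule.span ℚ (L x '' Set.Icc 1 N)

/-- the `n` with `L n` in the span of the values before -/
def R (x : ℕ → K) : Set ℕ := {n | 1 ≤ n ∧ L x n ∈ Submodule.span ℚ (L x '' Set.Ico 1 n)}

theorem L_one (x : ℕ → K) : L x 1 = 1 := by simp [L]

theorem L_prime (x : ℕ → K) {p : ℕ} (hp : p.Prime) : L x p = x p := by
  rw [L, hp.factorization]
  simp

theorem L_mul (x : ℕ → K) {m n : ℕ} (hm : m ≠ 0) (hn : n ≠ 0) : L x (m * n) = L x m * L x n := by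
  rw [L, Nat.factorization_mul hm hn, Finsupp.prod_add_index']
  · rfl
  · intro a; simp
  · intro a b c; rw [pow_add]

theorem up (x : ℕ → K) : Up (R x) := by
  intro n m hm hn
  refine ⟨Nat.mul_pos hn.1 hm, ?_⟩
  rw [L_mul x (by have := hn.1; omega) (by omega)]
  have h1 : LinearMap.mulRight ℚ (L x m) (L x n) ∈
      (Submodule.span ℚ (L x '' Set.Ico 1 n)).map (LinearMap.mulRight ℚ (L x m)) :=
    Submodule.mem_map_of_mem hn.2
  rw [Submodule.map_span] at h1
  refine Submodule.span_mono ?_ h1
  rintro _ ⟨_, ⟨j, hj, rfl⟩, rfl⟩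
  refine ⟨j * m, ⟨Nat.mul_pos hj.1 hm, Nat.mul_lt_mul_of_pos_right hj.2 hm⟩, ?_⟩
  rw [LinearMap.mulRight_apply, L_mul x (by have := hj.1; omega) (by omega)]

theorem V_succ (x : ℕ → K) (N : ℕ) : V x (N + 1) = V x N ⊔ Submodule.span ℚ {L x (N + 1)} := by
  unfold V
  rw [← Submodule.span_union]
  congr 1
  ext y
  simp only [Set.mem_image, Set.mem_Icc, Set.mem_union, Set.mem_singleton_iff]
  constructor
  · rintro ⟨n, ⟨h1, h2⟩, rfl⟩
    rcases Nat.lt_or_ge N n with h | h
    · right; congr 1; omega
    · left; exact ⟨n, ⟨h1, h⟩, rfl⟩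
  · rintro (⟨n, ⟨h1, h2⟩, rfl⟩ | rfl)
    · exact ⟨n, ⟨h1, by omega⟩, rfl⟩
    · exact ⟨N + 1, ⟨by omega, le_rfl⟩, rfl⟩

instance (x : ℕ → K) (N : ℕ) : FiniteDimensional ℚ (V x N) :=
  FiniteDimensional.span_of_finite ℚ ((Set.finite_Icc 1 N).image _)

theorem mem_R_iff (x : ℕ → K) (N : ℕ) : N + 1 ∈ R x ↔ L x (N + 1) ∈ V x N := by
  have : Set.Ico 1 (N + 1) = Set.Icc 1 N := by ext; simp [Nat.lt_succ_iff]
  unfold R V
  rw [Set.mem_setOf_eq, this]
  simp

open Classical in
theorem finrank_V (x : ℕ → K) (N : ℕ) :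
    Module.finrank ℚ (V x N) + ((Icc 1 N).filter fun n => n ∈ R x).card = N := by
  induction N with
  | zero =>
    have : V x 0 = ⊥ := by simp [V]
    simp [this]
  | succ N ih =>
    have hI : Icc 1 (N + 1) = insert (N + 1) (Icc 1 N) := by
      ext; simp only [mem_Icc, mem_insert]; omega
    have hn : N + 1 ∉ Icc 1 N := by simp
    rw [hI, filter_insert]
    by_cases h : N + 1 ∈ R x
    · rw [if_pos h, card_insert_of_notMem (by simp [hn])]
      have h1 : V x (N + 1) = V x N := by
        rw [V_succ, sup_eq_left, Submodule.span_singleton_le_iff_mem]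
        exact (mem_R_iff x N).1 h
      rw [h1]; omega
    · rw [if_neg h]
      have hv : L x (N + 1) ∉ V x N := fun h' => h ((mem_R_iff x N).2 h')
      have h0 : L x (N + 1) ≠ 0 := fun h' => hv (h' ▸ Submodule.zero_mem _)
      have hinf : V x N ⊓ Submodule.span ℚ {L x (N + 1)} = ⊥ := by
        rw [Submodule.eq_bot_iff]
        rintro y ⟨hy1, hy2⟩
        obtain ⟨c, rfl⟩ := Submodule.mem_span_singleton.1 hy2
        by_cases hc : c = 0
        · simp [hc]
        · exact absurd ((Submodule.smul_mem_iff _ hc).1 hy1) hv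
      have h1 := Submodule.finrank_sup_add_finrank_inf_eq (V x N) (Submodule.span ℚ {L x (N + 1)})
      rw [hinf, finrank_bot, ← V_succ, finrank_span_singleton h0] at h1
      omega

/-- the exponent vector of `n` -/
noncomputable def ex (n : ℕ) : Nat.Primes →₀ ℕ := Finsupp.subtypeDomain (fun p : ℕ => p.Prime) n.factorization

theorem L_eq (x : ℕ → K) (n : ℕ) : L x n = (ex n).prod fun p a => x p ^ a := by
  unfold L ex
  exact (Finsupp.prod_subtypeDomain_index (h := fun p a => x p ^ a)
    (fun p hp => Nat.prime_of_mem_primeFactors (by simpa using hp))).symm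

theorem ex_bij : Function.Bijective (fun n : {n : ℕ // 1 ≤ n} => ex n.1) := by
  classical
  constructor
  · rintro ⟨n, hn⟩ ⟨m, hm⟩ h
    apply Subtype.ext
    apply Nat.eq_of_factorization_eq (show n ≠ 0 by omega) (show m ≠ 0 by omega)
    intro p
    by_cases hp : p.Prime
    · exact DFunLike.congr_fun h (⟨p, hp⟩ : Nat.Primes)
    · rw [Nat.factorization_eq_zero_of_not_prime _ hp, Nat.factorization_eq_zero_of_not_prime _ hp]
  · intro f
    set g : ℕ →₀ ℕ := Finsupp.extendDomain (P := fun p : ℕ => p.Prime) f with hg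
    have hgp : ∀ p ∈ g.support, p.Prime := by
      intro p hp
      exact Finsupp.support_extendDomain_subset f hp
    refine ⟨⟨g.prod (· ^ ·), ?_⟩, ?_⟩
    · have : g.prod (· ^ ·) ≠ 0 := by
        rw [Finsupp.prod]
        exact Finset.prod_ne_zero_iff.2 fun p hp => pow_ne_zero _ (hgp p hp).ne_zero
      omega
    · show Finsupp.subtypeDomain _ (Nat.factorization _) = f
      rw [Nat.prod_pow_factorization_eq_self hgp, hg]
      exact Finsupp.subtypeDomain_extendDomain f

theorem algInd_iff {σ : Type} (y : σ → K) : AlgebraicIndependent ℚ y ↔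
    LinearIndependent ℚ (fun f : σ →₀ ℕ => f.prod fun i a => y i ^ a) := by
  have h1 : (fun f : σ →₀ ℕ => f.prod fun i a => y i ^ a) =
      (MvPolynomial.aeval (R := ℚ) y).toLinearMap ∘ (MvPolynomial.basisMonomials σ ℚ) := by
    funext f
    simp [MvPolynomial.aeval_monomial]
  rw [h1]
  constructor
  · intro h
    exact (MvPolynomial.basisMonomials σ ℚ).linearIndependent.map' _ (LinearMap.ker_eq_bot.2 h)
  · intro h
    have h2 : Function.Injective (MvPolynomial.aeval (R := ℚ) y).toLinearMap := by
      rw [← LinearMap.ker_eq_bot, LinearMap.ker_eq_bot']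
      intro p hp
      have h3 := Finsupp.apply_linearCombination ℚ (MvPolynomial.aeval (R := ℚ) y).toLinearMap
        (MvPolynomial.basisMonomials σ ℚ) ((MvPolynomial.basisMonomials σ ℚ).repr p)
      rw [(MvPolynomial.basisMonomials σ ℚ).linearCombination_repr, hp] at h3
      have h4 := (linearIndependent_iff.1 h) _ h3.symm
      simpa using h4
    exact h2

/-- the numbers `x p`, `p` prime, are algebraically independent iff no `L n` is in the span of the values before -/
theorem algInd_R (x : ℕ → K) : AlgebraicIndependent ℚ (fun p : Nat.Primes => x p) ↔ R x = ∅ := by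
  classical
  rw [algInd_iff]
  set e := Equiv.ofBijective _ ex_bij with he
  have h1 : LinearIndependent ℚ (fun f : Nat.Primes →₀ ℕ => f.prod fun i a => x i ^ a) ↔
      LinearIndependent ℚ (fun n : {n : ℕ // 1 ≤ n} => L x n) := by
    rw [← linearIndependent_equiv e]
    have : (fun f : Nat.Primes →₀ ℕ => f.prod fun i a => x i ^ a) ∘ e = fun n : {n : ℕ // 1 ≤ n} => L x n := by
      funext n
      rw [Function.comp, L_eq]
      rfl
    rw [this]
  rw [h1]
  constructor
  · intro h
    rw [Set.eq_empty_iff_forall_notMem]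
    rintro n ⟨hn1, hn⟩
    have h2 := h.notMem_span_image (s := {m | m.1 < n}) (x := ⟨n, hn1⟩) (by simp)
    apply h2
    refine Submodule.span_mono ?_ hn
    rintro _ ⟨j, hj, rfl⟩
    exact ⟨⟨j, hj.1⟩, hj.2, rfl⟩
  · intro h
    rw [linearIndependent_iff_finset_linearIndependent]
    intro s
    obtain ⟨N, hN⟩ : ∃ N, ∀ n ∈ s, n.1 ≤ N := ⟨s.sup fun n => n.1, fun n hn => Finset.le_sup (f := fun n => n.1) hn⟩
    have hfr := finrank_V x N
    rw [h] at hfr
    simp only [Set.mem_empty_iff_false, filter_false, card_empty, add_zero] at hfr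
    have h3 : LinearIndependent ℚ (fun n : Set.Icc 1 N => L x n) := by
      rw [linearIndependent_iff_card_eq_finrank_span]
      have hr : Set.range (fun n : Set.Icc 1 N => L x n) = L x '' Set.Icc 1 N := by
        ext y; simp
      rw [hr]
      show _ = Module.finrank ℚ (V x N)
      rw [hfr]
      simp
    have h4 := h3.comp (fun n : s => (⟨n.1.1, n.1.2, hN _ n.2⟩ : Set.Icc 1 N))
      (fun a b hab => by
        have := congrArg Subtype.val hab
        exact Subtype.ext (Subtype.ext this))
    exact h4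

/-- independence up to `m` from a bound for one `N` -/
theorem local_ind (x : ℕ → K) {m N : ℕ} (hm : 1 ≤ m) (h : N < Module.finrank ℚ (V x N) + N / m) :
    LinearIndependent ℚ (fun n : Fin m => L x (n + 1)) := by
  classical
  have hR : ∀ n, n ≤ m → n ∉ R x := by
    intro n hnm hn
    have h1 := finrank_V x N
    have h2 : N / m ≤ ((Icc 1 N).filter fun n => n ∈ R x).card := by
      have hn1 := hn.1
      refine (Nat.div_le_div_left hnm hn1).trans ?_
      have h3 : ((Icc 1 (N / n)).image fun j => n * j) ⊆ (Icc 1 N).filter fun n => n ∈ R x := by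
        intro t ht
        obtain ⟨j, hj, rfl⟩ := mem_image.1 ht
        rw [mem_Icc] at hj
        rw [mem_filter, mem_Icc]
        refine ⟨⟨Nat.mul_pos hn1 hj.1, ?_⟩, up x n j hj.1 hn⟩
        calc n * j ≤ n * (N / n) := Nat.mul_le_mul_left _ hj.2
          _ ≤ N := Nat.mul_div_le N n
      have h4 := card_le_card h3
      rw [card_image_of_injective _ (fun a b hab => Nat.eq_of_mul_eq_mul_left hn1 hab), Nat.card_Icc] at h4
      simpa using h4
    omega
  have hfr := finrank_V x m
  have h0 : (Icc 1 m).filter (fun n => n ∈ R x) = ∅ := by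
    rw [filter_eq_empty_iff]
    intro n hn
    exact hR n (mem_Icc.1 hn).2
  rw [h0, card_empty, add_zero] at hfr
  rw [linearIndependent_iff_card_eq_finrank_span]
  have hr : Set.range (fun n : Fin m => L x (n + 1)) = L x '' Set.Icc 1 m := by
    ext y
    simp only [Set.mem_range, Set.mem_image, Set.mem_Icc]
    constructor
    · rintro ⟨n, rfl⟩; exact ⟨n + 1, ⟨by omega, by omega⟩, rfl⟩
    · rintro ⟨n, ⟨h1, h2⟩, rfl⟩
      refine ⟨⟨n - 1, by omega⟩, ?_⟩
      show L x (n - 1 + 1) = L x n
      rw [Nat.sub_add_cancel h1]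
  rw [hr]
  show _ = Module.finrank ℚ (V x m)
  rw [hfr]; simp

end Pool.Agent.X191.MS
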